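import Mathlib
import Pool.Agent.H1.TD.Defs
import Pool.Agent.H1.TD.Proof

namespace Pool.Agent.Results.MP_0479e2_co.SizeBound
open Pool.Agent.H1.TD

theorem result {V : Type*} [Fintype V] (G : SimpleGraph V) (hbip : G.IsBipartite)
    (hiso : ∀ v, ∃ w, G.Adj v w) (hodd : Odd (totalDominationNumber G))
    (h3 : 3 ≤ totalDominationNumber G) :
    (G.edgeSet.ncard : ℤ) ≤
      (((Fintype.card V : ℤ) - totalDominationNumber G) *
        ((Fintype.card V : ℤ) - totalDominationNumber G + 4)
          + 2 * totalDominationNumber G - 2) / 4 := by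
  rw [Int.le_ediv_iff_mul_le (by norm_num), mul_comm]
  exact bound G hbip hiso hodd h3

end Pool.Agent.Results.MP_0479e2_co.SizeBound
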